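import Pool.Agent.Q127.HS.Group
import Pool.Agent.W616.HSpec

/-!
# Longitudes of the representations of closed three-strand braids in the group of order 1344
-/

set_option autoImplicit false
set_option linter.unusedSectionVars false

namespace Pool.Agent.Q127.HS

open Pool.Agent.W616 (Strand Braid crossing run fresh perm longAux labs accs Closed force force_eq
  allTo allTo_eq run_cons Trans3 closed_isConj closed_map_conj base)

/-- one crossing, on codes -/
def stepN {α : Type} (g : Fin 2 × Bool) (l0 l1 l2 a0 a1 a2 : ℕ)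
    (k : ℕ → ℕ → ℕ → ℕ → ℕ → ℕ → α) : α :=
  match g.1.val, g.2 with
  | 0, true => force (hm (hm (hi l0) l1) l0) fun x => force (hm a1 l0) fun y => k x l0 l2 y a0 a2
  | 0, false => force (hm (hm l1 l0) (hi l1)) fun x => force (hm a0 (hi l1)) fun y =>
      k l1 x l2 a1 y a2
  | _ + 1, true => force (hm (hm (hi l1) l2) l1) fun x => force (hm a2 l1) fun y =>
      k l0 x l1 a0 y a1
  | _ + 1, false => force (hm (hm l2 l1) (hi l2)) fun x => force (hm a1 (hi l2)) fun y =>
      k l0 l2 x a0 a2 y

/-- a braid word, on codes -/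
def runN {α : Type} (w : List (Fin 2 × Bool)) (l0 l1 l2 a0 a1 a2 : ℕ)
    (k : ℕ → ℕ → ℕ → ℕ → ℕ → ℕ → α) : α :=
  match w with
  | [] => k l0 l1 l2 a0 a1 a2
  | g :: w => stepN g l0 l1 l2 a0 a1 a2 fun l0 l1 l2 a0 a1 a2 => runN w l0 l1 l2 a0 a1 a2 k

theorem runN_eq {α O : Type} (w : Braid 2) (s : Fin 3 → Strand E O)
    (k : ℕ → ℕ → ℕ → ℕ → ℕ → ℕ → α) :
    runN w (s 0).lab.code (s 1).lab.code (s 2).lab.code (s 0).acc.code (s 1).acc.code
      (s 2).acc.code k =
    k (run w s 0).lab.code (run w s 1).lab.code (run w s 2).lab.code (run w s 0).acc.code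
      (run w s 1).acc.code (run w s 2).acc.code := by
  induction w generalizing s with
  | nil => rfl
  | cons g w ih =>
    rw [run_cons, runN, ← ih (crossing g s)]
    rcases g with ⟨j, b⟩
    fin_cases j <;> cases b <;> simp only [stepN, force_eq] <;> rfl

/-- one crossing, on the permutations of the labels -/
def stepQ {α : Type} (g : Fin 2 × Bool) (l0 l1 l2 : ℕ) (k : ℕ → ℕ → ℕ → α) : α :=
  match g.1.val, g.2 with
  | 0, true => force (qm (qm (qi l0) l1) l0) fun x => k x l0 l2
  | 0, false => force (qm (qm l1 l0) (qi l1)) fun x => k l1 x l2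
  | _ + 1, true => force (qm (qm (qi l1) l2) l1) fun x => k l0 x l1
  | _ + 1, false => force (qm (qm l2 l1) (qi l2)) fun x => k l0 l2 x

/-- a braid word, on the permutations of the labels -/
def runQ {α : Type} (w : List (Fin 2 × Bool)) (l0 l1 l2 : ℕ) (k : ℕ → ℕ → ℕ → α) : α :=
  match w with
  | [] => k l0 l1 l2
  | g :: w => stepQ g l0 l1 l2 fun l0 l1 l2 => runQ w l0 l1 l2 k

theorem div_conj' (a b : E) : (a⁻¹ * b * a).code / 8 =
    qm (qm (qi (a.code / 8)) (b.code / 8)) (a.code / 8) := by
  rw [code_mul, code_mul, code_inv, hm_div, hm_div, hi_div]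

theorem div_conj (a b : E) : (b * a * b⁻¹).code / 8 =
    qm (qm (b.code / 8) (a.code / 8)) (qi (b.code / 8)) := by
  rw [code_mul, code_mul, code_inv, hm_div, hm_div, hi_div]

theorem runQ_eq {α O : Type} (w : Braid 2) (s : Fin 3 → Strand E O) (k : ℕ → ℕ → ℕ → α) :
    runQ w ((s 0).lab.code / 8) ((s 1).lab.code / 8) ((s 2).lab.code / 8) k =
    k ((run w s 0).lab.code / 8) ((run w s 1).lab.code / 8) ((run w s 2).lab.code / 8) := by
  induction w generalizing s with
  | nil => rfl
  | cons g w ih =>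
    rw [run_cons, runQ, ← ih (crossing g s)]
    rcases g with ⟨j, b⟩
    fin_cases j <;> cases b
    · have h0 : crossing ((0 : Fin 2), false) s 0 = s 1 := rfl
      have h1 : crossing ((0 : Fin 2), false) s 1 =
        ⟨(s 1).lab * (s 0).lab * (s 1).lab⁻¹, (s 0).acc * (s 1).lab⁻¹, (s 0).org⟩ := rfl
      have h2 : crossing ((0 : Fin 2), false) s 2 = s 2 := rfl
      change stepQ ((0 : Fin 2), false) _ _ _ _ = runQ w ((crossing ((0 : Fin 2), false) s 0).lab.code / 8)
        ((crossing ((0 : Fin 2), false) s 1).lab.code / 8)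
        ((crossing ((0 : Fin 2), false) s 2).lab.code / 8) k
      rw [h0, h1, h2]
      simp only [stepQ, force_eq, div_conj]
    · have h0 : crossing ((0 : Fin 2), true) s 0 =
        ⟨(s 0).lab⁻¹ * (s 1).lab * (s 0).lab, (s 1).acc * (s 0).lab, (s 1).org⟩ := rfl
      have h1 : crossing ((0 : Fin 2), true) s 1 = s 0 := rfl
      have h2 : crossing ((0 : Fin 2), true) s 2 = s 2 := rfl
      change stepQ ((0 : Fin 2), true) _ _ _ _ = runQ w ((crossing ((0 : Fin 2), true) s 0).lab.code / 8)
        ((crossing ((0 : Fin 2), true) s 1).lab.code / 8)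
        ((crossing ((0 : Fin 2), true) s 2).lab.code / 8) k
      rw [h0, h1, h2]
      simp only [stepQ, force_eq, div_conj']
    · have h0 : crossing ((1 : Fin 2), false) s 0 = s 0 := rfl
      have h2 : crossing ((1 : Fin 2), false) s 2 =
        ⟨(s 2).lab * (s 1).lab * (s 2).lab⁻¹, (s 1).acc * (s 2).lab⁻¹, (s 1).org⟩ := rfl
      have h1 : crossing ((1 : Fin 2), false) s 1 = s 2 := rfl
      change stepQ ((1 : Fin 2), false) _ _ _ _ = runQ w ((crossing ((1 : Fin 2), false) s 0).lab.code / 8)
        ((crossing ((1 : Fin 2), false) s 1).lab.code / 8)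
        ((crossing ((1 : Fin 2), false) s 2).lab.code / 8) k
      rw [h0, h1, h2]
      simp only [stepQ, force_eq, div_conj]
    · have h0 : crossing ((1 : Fin 2), true) s 0 = s 0 := rfl
      have h1 : crossing ((1 : Fin 2), true) s 1 =
        ⟨(s 1).lab⁻¹ * (s 2).lab * (s 1).lab, (s 2).acc * (s 1).lab, (s 2).org⟩ := rfl
      have h2 : crossing ((1 : Fin 2), true) s 2 = s 1 := rfl
      change stepQ ((1 : Fin 2), true) _ _ _ _ = runQ w ((crossing ((1 : Fin 2), true) s 0).lab.code / 8)
        ((crossing ((1 : Fin 2), true) s 1).lab.code / 8)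
        ((crossing ((1 : Fin 2), true) s 2).lab.code / 8) k
      rw [h0, h1, h2]
      simp only [stepQ, force_eq, div_conj']

/-- closed labels have an allowed longitude -/
def good (w : List (Fin 2 × Bool)) (L : ℕ → ℕ → ℕ → ℕ) (x y z : ℕ) (S : ℕ → Bool) : Bool :=
  runN w x y z 0 0 0 fun l0 l1 l2 a0 a1 a2 =>
    if l0 = x ∧ l1 = y ∧ l2 = z then S (L a0 a1 a2) else true

/-- the permutations of the labels are closed -/
def clq (w : List (Fin 2 × Bool)) (x y z : ℕ) : Bool :=
  runQ w x y z fun l0 l1 l2 => decide (l0 = x ∧ l1 = y ∧ l2 = z)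

/-- the closure condition, on codes -/
def cl (w : List (Fin 2 × Bool)) (x y z : ℕ) : Bool :=
  runN w x y z 0 0 0 fun l0 l1 l2 _ _ _ => decide (l0 = x ∧ l1 = y ∧ l2 = z)

theorem codes_iff (w : Braid 2) (x : Fin 3 → E) :
    ((run w (fresh x) 0).lab.code = (x 0).code ∧ (run w (fresh x) 1).lab.code = (x 1).code ∧
      (run w (fresh x) 2).lab.code = (x 2).code) ↔ Closed w x := by
  constructor
  · rintro ⟨h0, h1, h2⟩ p
    fin_cases p
    · exact E.ext' h0
    · exact E.ext' h1
    · exact E.ext' h2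
  · intro h
    exact ⟨congrArg E.code (h 0), congrArg E.code (h 1), congrArg E.code (h 2)⟩

theorem cl_eq (w : Braid 2) (x : Fin 3 → E) :
    cl w (x 0).code (x 1).code (x 2).code = true ↔ Closed w x := by
  have h := runN_eq w (fresh x) (fun l0 l1 l2 _ _ _ =>
    decide (l0 = (x 0).code ∧ l1 = (x 1).code ∧ l2 = (x 2).code))
  have h2 : cl w (x 0).code (x 1).code (x 2).code =
    decide ((run w (fresh x) 0).lab.code = (x 0).code ∧ (run w (fresh x) 1).lab.code = (x 1).code ∧
      (run w (fresh x) 2).lab.code = (x 2).code) := h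
  rw [h2, decide_eq_true_iff, codes_iff]

theorem clq_of (w : Braid 2) (x : Fin 3 → E) (hx : Closed w x) :
    clq w ((x 0).code / 8) ((x 1).code / 8) ((x 2).code / 8) = true := by
  have h := runQ_eq w (fresh x) (fun l0 l1 l2 =>
    decide (l0 = (x 0).code / 8 ∧ l1 = (x 1).code / 8 ∧ l2 = (x 2).code / 8))
  have h2 : clq w ((x 0).code / 8) ((x 1).code / 8) ((x 2).code / 8) =
    decide ((run w (fresh x) 0).lab.code / 8 = (x 0).code / 8 ∧
      (run w (fresh x) 1).lab.code / 8 = (x 1).code / 8 ∧
      (run w (fresh x) 2).lab.code / 8 = (x 2).code / 8) := h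
  rw [h2, decide_eq_true_iff]
  obtain ⟨h0, h1, h3⟩ := (codes_iff w x).2 hx
  rw [h0, h1, h3]
  exact ⟨rfl, rfl, rfl⟩

theorem good_of (w : Braid 2) (L : ℕ → ℕ → ℕ → ℕ) (S : ℕ → Bool) (x : Fin 3 → E)
    (hx : Closed w x) (h : good w L (x 0).code (x 1).code (x 2).code S = true) :
    S (L (accs w x 0).code (accs w x 1).code (accs w x 2).code) = true := by
  have h1 := runN_eq w (fresh x) (fun l0 l1 l2 a0 a1 a2 =>
    if l0 = (x 0).code ∧ l1 = (x 1).code ∧ l2 = (x 2).code then S (L a0 a1 a2) else true)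
  have h2 : good w L (x 0).code (x 1).code (x 2).code S =
    if (run w (fresh x) 0).lab.code = (x 0).code ∧ (run w (fresh x) 1).lab.code = (x 1).code ∧
      (run w (fresh x) 2).lab.code = (x 2).code then
        S (L (run w (fresh x) 0).acc.code (run w (fresh x) 1).acc.code
          (run w (fresh x) 2).acc.code) else true := h1
  rw [h2, if_pos ((codes_iff w x).2 hx)] at h
  exact h

/-- all solutions with the `k`-th representative as a label have an allowed longitude -/
def chk (w : List (Fin 2 × Bool)) (t : Bool) (L : ℕ → ℕ → ℕ → ℕ) (k : ℕ) (S : ℕ → Bool) : Bool :=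
  allTo 168 fun i => !(msk k).testBit i || allTo 168 fun j => !(msk k).testBit j ||
    (!(if t then clq w (rep k / 8) i j else clq w i j (rep k / 8)) ||
      allTo 8 fun u => allTo 8 fun v =>
        if t then good w L (rep k) (8 * i + u) (8 * j + v) S
          else good w L (8 * i + u) (8 * j + v) (rep k) S)

theorem rep_lt (k : ℕ) : rep k < 1344 := by
  by_cases h : k < 11
  · interval_cases k <;> decide
  · have : rep k = 0 := List.getD_eq_default _ _ (by simp; omega)
    omega

/-- the representatives of the conjugacy classes -/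
def repE (k : ℕ) : E := ⟨rep k, rep_lt k⟩

theorem chk_spec (w : Braid 2) (hw : Trans3 w) (t : Bool) (L : ℕ → ℕ → ℕ → ℕ) (k : ℕ) (hk : k < 11)
    (S : ℕ → Bool) (h : chk w t L k S = true) (x : Fin 3 → E) (hx : Closed w x)
    (hb : x (base t) = repE k) :
    S (L (accs w x 0).code (accs w x 1).code (accs w x 2).code) = true := by
  have hmask : ∀ p, (msk k).testBit ((x p).code / 8) = true := by
    intro p
    obtain ⟨g, hg⟩ := closed_isConj w hw x hx (base t) p
    rw [hg, hb, div_conj]
    have h1 := (allTo_eq _ _).1 msk_all k hk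
    have hg2 : g.code / 8 < 168 := by have := g.lt; omega
    exact (allTo_eq _ _).1 h1 _ hg2
  have key : ∀ i j : E, (msk k).testBit (i.code / 8) = true → (msk k).testBit (j.code / 8) = true →
      (if t then clq w (rep k / 8) (i.code / 8) (j.code / 8)
        else clq w (i.code / 8) (j.code / 8) (rep k / 8)) = true →
      (if t then good w L (rep k) i.code j.code S else good w L i.code j.code (rep k) S) = true := by
    intro i j hi hj hc
    have hi2 : i.code / 8 < 168 := by have := i.lt; omega
    have hj2 : j.code / 8 < 168 := by have := j.lt; omega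
    have h1 := (allTo_eq _ _).1 h _ hi2
    rw [hi, Bool.not_true, Bool.false_or] at h1
    have h2 := (allTo_eq _ _).1 h1 _ hj2
    rw [hj, Bool.not_true, Bool.false_or, hc, Bool.not_true, Bool.false_or] at h2
    have h3 := (allTo_eq _ _).1 ((allTo_eq _ _).1 h2 (i.code % 8) (Nat.mod_lt _ (by norm_num)))
      (j.code % 8) (Nat.mod_lt _ (by norm_num))
    rw [Nat.div_add_mod, Nat.div_add_mod] at h3
    exact h3
  have hcl := clq_of w x hx
  apply good_of w L S x hx
  cases t
  · have e : x 2 = repE k := hb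
    have e2 : (x 2).code = rep k := congrArg E.code e
    have := key (x 0) (x 1) (hmask 0) (hmask 1) (by
      rw [e2] at hcl
      exact hcl)
    rw [e2]
    exact this
  · have e : x 0 = repE k := hb
    have e2 : (x 0).code = rep k := congrArg E.code e
    have := key (x 1) (x 2) (hmask 1) (hmask 2) (by
      rw [e2] at hcl
      exact hcl)
    rw [e2]
    exact this

/-! ### The words -/

/-- The braid word `σ_1^6 σ_2 σ_1^-1 σ_2 σ_1^-2 σ_2` on three strands. -/
def wordZ : Braid 2 :=
  [(0, true), (0, true), (0, true), (0, true), (0, true), (0, true), (1, true), (0, false),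
    (1, true), (0, false), (0, false), (1, true)]

/-- `acc_0 (acc_1 acc_2)` -/
def L0 (a0 a1 a2 : ℕ) : ℕ := hm a0 (hm a1 a2)
/-- `acc_1 (acc_2 acc_0)` -/
def L1 (a0 a1 a2 : ℕ) : ℕ := hm a1 (hm a2 a0)
/-- `acc_2 (acc_1 acc_0)` -/
def L2 (a0 a1 a2 : ℕ) : ℕ := hm a2 (hm a1 a0)

/-- the longitudes of the closure of `wordZ` -/
def lonK (k : ℕ) : List ℕ :=
  [[0], [0], [1], [0], [1], [91], [89], [0, 4], [0, 4], [1152], [768, 570]].getD k []

/-- the longitudes of the closure of the reversed word -/
def lonR (k : ℕ) : List ℕ :=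
  [[0], [0], [1], [0], [1], [91], [89], [0, 4], [0, 4], [1152, 464], [768]].getD k []

end Pool.Agent.Q127.HS
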