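import Pool.Agent.Q127.HS.Tab

/-!
# The group of order 1344
-/

set_option autoImplicit false
set_option linter.unusedSectionVars false

namespace Pool.Agent.Q127.HS

open Pool.Agent.W616 (force force_eq allTo allTo_eq)

theorem xor_lt8 {v w : ℕ} (h : v < 8) (h' : w < 8) : v ^^^ w < 8 :=
  Nat.xor_lt_two_pow (n := 3) h h'

theorem hm_div {a b : ℕ} : hm a b / 8 = qm (a / 8) (b / 8) := by
  have h1 : qa (a / 8) (b % 8) ^^^ te (a / 8) (b / 8) % 8 < 8 :=
    xor_lt8 (qa_lt _ _) (Nat.mod_lt _ (by norm_num))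
  have h2 : a % 8 ^^^ (qa (a / 8) (b % 8) ^^^ te (a / 8) (b / 8) % 8) < 8 :=
    xor_lt8 (Nat.mod_lt _ (by norm_num)) h1
  simp only [hm, force_eq, qm]
  omega

theorem hm_mod {a b : ℕ} : hm a b % 8 =
    a % 8 ^^^ (qa (a / 8) (b % 8) ^^^ te (a / 8) (b / 8) % 8) := by
  have h1 : qa (a / 8) (b % 8) ^^^ te (a / 8) (b / 8) % 8 < 8 :=
    xor_lt8 (qa_lt _ _) (Nat.mod_lt _ (by norm_num))
  have h2 : a % 8 ^^^ (qa (a / 8) (b % 8) ^^^ te (a / 8) (b / 8) % 8) < 8 :=
    xor_lt8 (Nat.mod_lt _ (by norm_num)) h1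
  simp only [hm, force_eq]
  omega

theorem qm_lt {a b : ℕ} (ha : a < 168) (hb : b < 168) : qm a b < 168 := by
  have := te_lt a ha b hb
  simp only [qm]
  omega

theorem hm_lt {a b : ℕ} (ha : a < 1344) (hb : b < 1344) : hm a b < 1344 := by
  have h1 := qm_lt (show a / 8 < 168 by omega) (show b / 8 < 168 by omega)
  have h2 := @hm_div a b
  omega

theorem hi_lt {a : ℕ} (ha : a < 1344) : hi a < 1344 := by
  have h := (allTo_eq _ _).1 hi_hm_all a ha
  simp only [Bool.and_eq_true, decide_eq_true_eq] at h
  exact h.2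

theorem hi_hm {a : ℕ} (ha : a < 1344) : hm (hi a) a = 0 := by
  have h := (allTo_eq _ _).1 hi_hm_all a ha
  simp only [Bool.and_eq_true, beq_iff_eq] at h
  exact h.1

theorem hi_div {a : ℕ} : hi a / 8 = qi (a / 8) := by
  have h1 : qa (qi (a / 8)) (a % 8) ^^^ te (qi (a / 8)) (a / 8) % 8 < 8 :=
    xor_lt8 (qa_lt _ _) (Nat.mod_lt _ (by norm_num))
  simp only [hi, force_eq]
  omega

theorem ap_lt {a i : ℕ} (ha : a < 1344) (hi : i < 14) : ap a i < 14 :=
  tg_lt _ (Nat.mod_lt _ (by norm_num)) _ (sg_lt _ (by omega) _ hi)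

theorem ap_hm {a b i : ℕ} (ha : a < 1344) (hb : b < 1344) (h : i < 14) :
    ap (hm a b) i = ap a (ap b i) := by
  have qa' : a / 8 < 168 := by omega
  have qb' : b / 8 < 168 := by omega
  have va : a % 8 < 8 := Nat.mod_lt _ (by norm_num)
  have vb : b % 8 < 8 := Nat.mod_lt _ (by norm_num)
  have hs : sg (b / 8) i < 14 := sg_lt _ qb' _ h
  have ht := te_lt (a / 8) qa' (b / 8) qb'
  have hs2 : sg (te (a / 8) (b / 8) / 8) i < 14 := sg_lt _ (by omega) _ h
  have hv : te (a / 8) (b / 8) % 8 < 8 := Nat.mod_lt _ (by norm_num)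
  rw [ap, hm_div, hm_mod, qm]
  rw [ap, ap, sg_tg _ qa' _ vb _ hs, sg_sg qa' qb' h,
    tg_tg _ (qa_lt _ _) _ hv _ hs2, tg_tg _ va _ (xor_lt8 (qa_lt _ _) hv) _ hs2]

theorem ap_inj {a b : ℕ} (ha : a < 1344) (hb : b < 1344) (h : ∀ i < 14, ap a i = ap b i) :
    a = b := by
  rw [← dc_ap a ha, ← dc_ap b hb, h 0 (by norm_num), h 2 (by norm_num), h 4 (by norm_num)]

theorem hm_assoc {a b c : ℕ} (ha : a < 1344) (hb : b < 1344) (hc : c < 1344) :
    hm (hm a b) c = hm a (hm b c) := by
  refine ap_inj (hm_lt (hm_lt ha hb) hc) (hm_lt ha (hm_lt hb hc)) fun i hi => ?_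
  rw [ap_hm (hm_lt ha hb) hc hi, ap_hm ha hb (ap_lt hc hi), ap_hm ha (hm_lt hb hc) hi,
    ap_hm hb hc hi]

/-- The group of order 1344. -/
structure E where
  /-- the code -/
  code : ℕ
  lt : code < 1344

theorem E.ext' {a b : E} (h : a.code = b.code) : a = b := by
  cases a; cases b; cases h; rfl

theorem one_hm_all : allTo 1344 (fun a => hm 0 a == a) = true := by decide +kernel

theorem one_hm {a : ℕ} (ha : a < 1344) : hm 0 a = a := by
  have h := (allTo_eq _ _).1 one_hm_all a ha
  simpa using h

instance : Mul E := ⟨fun a b => ⟨hm a.code b.code, hm_lt a.lt b.lt⟩⟩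
instance : One E := ⟨⟨0, by norm_num⟩⟩
instance : Inv E := ⟨fun a => ⟨hi a.code, hi_lt a.lt⟩⟩

instance : Group E :=
  Group.ofLeftAxioms (fun a b c => E.ext' (hm_assoc a.lt b.lt c.lt))
    (fun a => E.ext' (one_hm a.lt)) (fun a => E.ext' (hi_hm a.lt))

theorem code_mul (a b : E) : (a * b).code = hm a.code b.code := rfl
theorem code_inv (a : E) : (a⁻¹).code = hi a.code := rfl
theorem code_one : (1 : E).code = 0 := rfl

theorem code_eq_zero (a : E) : a.code = 0 ↔ a = 1 := by
  constructor
  · intro h; exact E.ext' h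
  · rintro rfl; rfl

instance : Finite E :=
  Finite.of_injective (fun a : E => (⟨a.code, a.lt⟩ : Fin 1344)) fun a b h =>
    E.ext' (congrArg Fin.val h)

/-! ### Conjugacy classes -/

/-- the number of the conjugacy class -/
def cls (a : ℕ) : ℕ := (ktab >>> (4 * a)) % 16

/-- an element which conjugates to the representative -/
def cj (a : ℕ) : ℕ := (ctab >>> (11 * a)) % 2048

/-- the representatives of the conjugacy classes -/
def rep (k : ℕ) : ℕ := [0, 1, 8, 10, 12, 40, 44, 48, 52, 232, 248].getD k 0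

/-- the permutations of the elements of a conjugacy class, as bit masks -/
def msk (k : ℕ) : ℕ := [1, 1, 5846720173893396991996510364826255047159298795806, 5846720173893396991996510364826255047159298795806, 5846720173893396991996510364826255047159298795806, 58834054783694928714578629981425065066668874040864, 58834054783694928714578629981425065066668874040864, 27884676280068220488485765228740994972146477650112, 27884676280068220488485765228740994972146477650112, 93764565127268473310476770666576352875205346983936, 187814402791786127554605640933799785070738733531136].getD k 0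

theorem cls_all : allTo 1344 (fun a => decide (cls a < 11) && (decide (cj a < 1344) &&
    (hm (hm (cj a) a) (hi (cj a)) == rep (cls a)))) = true := by decide +kernel

theorem msk_all : allTo 11 (fun k => allTo 168 fun g =>
    (msk k).testBit (qm (qm g (rep k / 8)) (qi g))) = true := by decide +kernel

theorem pow_all : allTo 1344 (fun a => force (hm a a) fun b => force (hm b b) fun c =>
    force (hm c c) fun d => force (hm d (hm d d)) fun e => force (hm e e) fun f =>
      force (hm f f) fun g => hm e (hm f g) == 0) = true := by decide +kernel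

theorem pow168 (a : E) : a ^ 168 = 1 := by
  have h := (allTo_eq _ _).1 pow_all a.code a.lt
  simp only [force_eq, beq_iff_eq] at h
  have h2 : (let b := a * a; let c := b * b; let d := c * c; let e := d * (d * d);
      let f := e * e; let g := f * f; e * (f * g)) = 1 := E.ext' h
  have h3 : (let b := a * a; let c := b * b; let d := c * c; let e := d * (d * d);
      let f := e * e; let g := f * f; e * (f * g)) = a ^ 168 := by
    simp only [← pow_succ', ← pow_two, ← pow_mul, ← pow_add]
    norm_num
  rw [← h3]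
  exact h2

end Pool.Agent.Q127.HS
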