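import Pool.Agent.Y472.RH.Main

/-!
# Braid words with `2 N`-fold powers of generators inserted, in groups of exponent dividing `N`
-/

set_option autoImplicit false
set_option linter.unusedSectionVars false

namespace Pool.Agent.Q127.HS

open Pool.Agent.W616
open Pool.Agent.Y472.RH (run_replicate_succ run_pos run_cancel)

/-- `Ins N w₀ w`: the braid word `w` is obtained from `w₀` by inserting, any number of times and at any
places, the `2 N`-th power of a generator `σ_i` or of its inverse. -/
inductive Ins (N : ℕ) {m : ℕ} (w₀ : Braid m) : Braid m → Prop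
  | refl : Ins N w₀ w₀
  | insert (u v : Braid m) (g : Fin m × Bool) (h : Ins N w₀ (u ++ v)) :
      Ins N w₀ (u ++ List.replicate (2 * N) g ++ v)

section ins

variable {N m n : ℕ}

theorem Ins.reverse {w₀ w : Braid m} (h : Ins N w₀ w) : Ins N w₀.reverse w.reverse := by
  induction h with
  | refl => exact Ins.refl
  | insert u v g _ ih =>
    rw [List.reverse_append] at ih
    have := Ins.insert v.reverse u.reverse g ih
    rw [List.reverse_append, List.reverse_append, List.reverse_replicate]
    rw [List.append_assoc] at this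
    exact this

theorem Ins.map {w₀ w : Braid m} (e : Fin m → Fin n) (h : Ins N w₀ w) :
    Ins N (w₀.map fun g => (e g.1, g.2)) (w.map fun g => (e g.1, g.2)) := by
  induction h with
  | refl => exact Ins.refl
  | insert u v g _ ih =>
    rw [List.map_append] at ih
    have := Ins.insert _ _ (e g.1, g.2) ih
    rw [List.map_append, List.map_append, List.map_replicate]
    exact this

theorem Ins.trans {w₀ w₁ w₂ : Braid m} (h : Ins N w₀ w₁) (h' : Ins N w₁ w₂) : Ins N w₀ w₂ := by
  induction h' with
  | refl => exact h
  | insert u v g _ ih => exact Ins.insert u v g ih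

theorem Ins.append_right {w₀ w : Braid m} (h : Ins N w₀ w) (z : Braid m) :
    Ins N (w₀ ++ z) (w ++ z) := by
  induction h with
  | refl => exact Ins.refl
  | insert u v g _ ih =>
    rw [List.append_assoc] at ih
    have := Ins.insert u (v ++ z) g ih
    rw [List.append_assoc, List.append_assoc]
    rw [List.append_assoc] at this
    exact this

theorem Ins.append_left {w₀ w : Braid m} (h : Ins N w₀ w) (z : Braid m) :
    Ins N (z ++ w₀) (z ++ w) := by
  induction h with
  | refl => exact Ins.refl
  | insert u v g _ ih =>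
    rw [← List.append_assoc] at ih
    have := Ins.insert (z ++ u) v g ih
    rw [← List.append_assoc, ← List.append_assoc]
    exact this

theorem Ins.append {w₀ w z₀ z : Braid m} (h : Ins N w₀ w) (h' : Ins N z₀ z) :
    Ins N (w₀ ++ z₀) (w ++ z) :=
  (h.append_right z₀).trans (h'.append_left w)

/-- the words for the sums -/
theorem Ins.sum {w₀ w z₀ z : Braid 2} (h : Ins N w₀ w) (h' : Ins N z₀ z) :
    Ins N (left3 w₀ ++ right3 z₀) (left3 w ++ right3 z) :=
  (h.map _).append (h'.map _)

theorem Ins.writhe {w₀ w : Braid m} (h : Ins N w₀ w) :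
    ∃ k : ℤ, writhe w = writhe w₀ + 2 * N * k := by
  induction h with
  | refl => exact ⟨0, by ring⟩
  | insert u v g _ ih =>
    obtain ⟨k, hk⟩ := ih
    have h1 : ∀ a b : Braid m, Pool.Agent.W616.writhe (a ++ b) =
        Pool.Agent.W616.writhe a + Pool.Agent.W616.writhe b := fun a b => by
      simp [Pool.Agent.W616.writhe]
    rw [h1] at hk
    rw [h1, h1]
    have h2 : Pool.Agent.W616.writhe (List.replicate (2 * N) g) =
        2 * N * (if g.2 then (1 : ℤ) else -1) := by
      simp only [Pool.Agent.W616.writhe, List.map_replicate, List.sum_replicate, nsmul_eq_mul]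
      push_cast
      ring
    rw [h2]
    refine ⟨k + (if g.2 then (1 : ℤ) else -1), ?_⟩
    linarith

end ins

section run

variable {G O : Type*} [Group G] {N m : ℕ}

theorem run_two (hN : ∀ a : G, a ^ N = 1) (g : Fin m × Bool) (x : Fin (m + 1) → Strand G O) :
    run (List.replicate (2 * N) g) x = x := by
  have hpos : ∀ i : Fin m, run (List.replicate (2 * N) (i, true)) x = x := by
    intro i
    obtain ⟨ha, hb, hc⟩ := run_pos i N x
    simp only [hN, one_mul, mul_one] at ha hb
    funext p
    by_cases h1 : p = i.castSucc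
    · rw [h1, ha]
    · by_cases h2 : p = i.succ
      · rw [h2, hb]
      · exact hc p h1 h2
  rcases g with ⟨i, b⟩
  cases b
  · have h := run_cancel i (2 * N) x
    rwa [hpos i] at h
  · exact hpos i

theorem Ins.run_eq (hN : ∀ a : G, a ^ N = 1) {w₀ w : Braid m} (h : Ins N w₀ w)
    (x : Fin (m + 1) → Strand G O) : run w x = run w₀ x := by
  induction h with
  | refl => rfl
  | insert u v g _ ih =>
    rw [run_append, run_append, run_two hN, ← run_append]
    exact ih

theorem Ins.perm_eq {w₀ w : Braid m} (h : Ins N w₀ w) : perm w = perm w₀ := by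
  funext p
  unfold perm
  rw [h.run_eq (fun _ => rfl)]

theorem Ins.longAux_eq (hN : ∀ a : G, a ^ N = 1) {w₀ w : Braid m} (h : Ins N w₀ w)
    (x : Fin (m + 1) → G) (b : Fin (m + 1)) (t : ℕ) : longAux w x b t = longAux w₀ x b t := by
  induction t with
  | zero => rfl
  | succ t ih =>
    unfold longAux
    rw [ih, h.run_eq hN]

theorem Ins.closed_iff (hN : ∀ a : G, a ^ N = 1) {w₀ w : Braid m} (h : Ins N w₀ w)
    (x : Fin (m + 1) → G) : Closed w x ↔ Closed w₀ x := by
  unfold Closed labs
  rw [h.run_eq hN]

/-- The number of homomorphisms to a group of exponent `N` does not change. -/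
theorem Ins.card_hom (hN : ∀ a : G, a ^ N = 1) {w₀ w : Braid m} (h : Ins N w₀ w)
    (b : Fin (m + 1)) (f : ℤ) :
    Nat.card (pi1 w b f →* G) = Nat.card (pi1 w₀ b f →* G) := by
  rw [Nat.card_congr (homEquiv w b f), Nat.card_congr (homEquiv w₀ b f)]
  refine Nat.card_congr (Equiv.subtypeEquivRight fun x => ?_)
  rw [h.closed_iff hN, h.longAux_eq hN]
  obtain ⟨k, hk⟩ := h.writhe
  have e : x b ^ (f - Pool.Agent.W616.writhe w) = x b ^ (f - Pool.Agent.W616.writhe w₀) := by
    have e1 : f - Pool.Agent.W616.writhe w =
        (f - Pool.Agent.W616.writhe w₀) + (N : ℤ) * (-2 * k) := by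
      rw [hk]; ring
    rw [e1, zpow_add, zpow_mul]
    have e2 : x b ^ (N : ℤ) = 1 := by
      have := hN (x b)
      exact_mod_cast this
    rw [e2, one_zpow, mul_one]
  rw [e]

end run

end Pool.Agent.Q127.HS
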