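import Pool.Agent.Q127.HS.Sum

/-!
# Integral homology spheres which are not separated by the quantum invariants
-/

set_option autoImplicit false
set_option linter.unusedSectionVars false

namespace Pool.Agent.Q127.HS

open Pool.Agent.W616

/-- the word for `K₁ # K₂` (`c = false`) and for `K₁ # rK₂` (`c = true`) -/
def sumWord (w₁ w₂ : Braid 2) (c : Bool) : Braid 4 :=
  left3 w₁ ++ right3 (if c then w₂.reverse else w₂)

theorem trans_ZZ : ∀ b p : Fin 5, ∃ t : Fin 5, (perm sumZZ)^[t.1] p = b := by decide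
theorem trans_ZR : ∀ b p : Fin 5, ∃ t : Fin 5, (perm sumZR)^[t.1] p = b := by decide

theorem perm_false (w₁ w₂ : Braid 2) (h₁ : Ins 168 wordZ w₁) (h₂ : Ins 168 wordZ w₂) :
    perm (sumWord w₁ w₂ false) = perm sumZZ := (h₁.sum h₂).perm_eq

theorem perm_true (w₁ w₂ : Braid 2) (h₁ : Ins 168 wordZ w₁) (h₂ : Ins 168 wordZ w₂) :
    perm (sumWord w₁ w₂ true) = perm sumZR := (h₁.sum h₂.reverse).perm_eq

theorem trans_all (w₁ w₂ : Braid 2) (h₁ : Ins 168 wordZ w₁) (h₂ : Ins 168 wordZ w₂) (c : Bool) :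
    ∀ b p : Fin 5, ∃ t : Fin 5, (perm (sumWord w₁ w₂ c))^[t.1] p = b := by
  cases c
  · rw [perm_false w₁ w₂ h₁ h₂]; exact trans_ZZ
  · rw [perm_true w₁ w₂ h₁ h₂]; exact trans_ZR

theorem isKnot_all (w₁ w₂ : Braid 2) (h₁ : Ins 168 wordZ w₁) (h₂ : Ins 168 wordZ w₂) (c : Bool) :
    IsKnot (sumWord w₁ w₂ c) := fun p => ⟨_, (trans_all w₁ w₂ h₁ h₂ c p 0).choose_spec⟩

theorem ab_all (w₁ w₂ : Braid 2) (h₁ : Ins 168 wordZ w₁) (h₂ : Ins 168 wordZ w₂) (c : Bool) :
    Subsingleton (Abelianization (pi1 (sumWord w₁ w₂ c) 2 1)) := by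
  obtain ⟨e⟩ := Pool.Agent.Y472.RH.ab_equiv (sumWord w₁ w₂ c) 2 1
    (fun p => trans_all w₁ w₂ h₁ h₂ c p 2)
    (fun p => ⟨_, (trans_all w₁ w₂ h₁ h₂ c 2 p).choose_spec⟩)
  have : Subsingleton (Multiplicative (ZMod (1 : ℤ).natAbs)) :=
    inferInstanceAs (Subsingleton (ZMod 1))
  exact e.toEquiv.subsingleton

/-- a free product of perfect groups is perfect -/
theorem ab_coprod {ι : Type} (G : ι → Type) [∀ i, Group (G i)]
    (h : ∀ i, Subsingleton (Abelianization (G i))) :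
    Subsingleton (Abelianization (Monoid.CoprodI G)) := by
  have h1 : ∀ {A : Type} [CommGroup A] (i : ι) (φ : G i →* A), φ = 1 := by
    intro A _ i φ
    ext x
    have h2 : Abelianization.lift φ (Abelianization.of x) = φ x := Abelianization.lift_apply_of φ x
    rw [← h2, Subsingleton.elim (Abelianization.of x) 1, map_one]
    rfl
  have h2 : (Abelianization.of : Monoid.CoprodI G →* Abelianization (Monoid.CoprodI G)) = 1 := by
    apply Monoid.CoprodI.ext_hom
    intro i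
    exact (h1 i _).trans (h1 i _).symm
  refine ⟨fun a b => ?_⟩
  obtain ⟨x, rfl⟩ := QuotientGroup.mk_surjective a
  obtain ⟨y, rfl⟩ := QuotientGroup.mk_surjective b
  exact (DFunLike.congr_fun h2 x).trans (DFunLike.congr_fun h2 y).symm

theorem card_false (w₁ w₂ : Braid 2) (h₁ : Ins 168 wordZ w₁) (h₂ : Ins 168 wordZ w₂) :
    1 < Nat.card (pi1 (sumWord w₁ w₂ false) 2 1 →* E) := by
  have := Ins.card_hom (G := E) pow168 (h₁.sum h₂) 2 1
  have h2 := card_ZZ
  rw [sumZZ, ← this] at h2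
  exact h2

theorem card_true (w₁ w₂ : Braid 2) (h₁ : Ins 168 wordZ w₁) (h₂ : Ins 168 wordZ w₂) :
    Nat.card (pi1 (sumWord w₁ w₂ true) 2 1 →* E) = 1 := by
  have := Ins.card_hom (G := E) pow168 (h₁.sum h₂.reverse) 2 1
  have h2 := card_ZR
  rw [sumZR, ← this] at h2
  exact h2

theorem card_coprod {ι : Type} [Fintype ι] (G : ι → Type) [∀ i, Group (G i)] :
    Nat.card (Monoid.CoprodI G →* E) = ∏ i, Nat.card (G i →* E) := by
  rw [← Nat.card_congr (Monoid.CoprodI.lift (M := G) (N := E)), Nat.card_pi]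

/-- The fundamental groups of the connected sums. -/
theorem coprod_not_iso (w₁ w₂ : Braid 2) (h₁ : Ins 168 wordZ w₁) (h₂ : Ins 168 wordZ w₂)
    {n n' : ℕ} (c : Fin n → Bool) (c' : Fin n' → Bool)
    (hc : (Finset.univ.filter fun i => c i = false).card ≠
      (Finset.univ.filter fun i => c' i = false).card) :
    IsEmpty (Monoid.CoprodI (fun i => pi1 (sumWord w₁ w₂ (c i)) 2 1) ≃*
      Monoid.CoprodI (fun i => pi1 (sumWord w₁ w₂ (c' i)) 2 1)) := by
  constructor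
  intro e
  have h : Nat.card (Monoid.CoprodI (fun i => pi1 (sumWord w₁ w₂ (c i)) 2 1) →* E) =
      Nat.card (Monoid.CoprodI (fun i => pi1 (sumWord w₁ w₂ (c' i)) 2 1) →* E) :=
    Nat.card_congr e.monoidHomCongrLeftEquiv
  have key : ∀ {n : ℕ} (c : Fin n → Bool),
      Nat.card (Monoid.CoprodI (fun i => pi1 (sumWord w₁ w₂ (c i)) 2 1) →* E) =
      Nat.card (pi1 (sumWord w₁ w₂ false) 2 1 →* E) ^
        (Finset.univ.filter fun i => c i = false).card := by
    intro n c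
    rw [card_coprod]
    have e1 : ∀ i, Nat.card (pi1 (sumWord w₁ w₂ (c i)) 2 1 →* E) =
        if c i = false then Nat.card (pi1 (sumWord w₁ w₂ false) 2 1 →* E) else 1 := by
      intro i
      cases hi : c i
      · simp
      · simp [card_true w₁ w₂ h₁ h₂]
    rw [Finset.prod_congr rfl fun i _ => e1 i, Finset.prod_ite, Finset.prod_const,
      Finset.prod_const_one, mul_one]
  rw [key c, key c'] at h
  exact hc (Nat.pow_right_injective (card_false w₁ w₂ h₁ h₂) h)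

theorem tauG_all (Δ : CartanDatum) (r : ℕ) (w₁ w₂ : Braid 2) (c c' : Bool) :
    tauG Δ r (sumWord w₁ w₂ c) 1 = tauG Δ r (sumWord w₁ w₂ c') 1 :=
  Pool.Agent.Y472.RH.tauG_all Δ r w₁ w₂ 1 c c'

theorem tauPG_all (Δ : CartanDatum) (r : ℕ) (w₁ w₂ : Braid 2) (c c' : Bool) :
    tauPG Δ r (sumWord w₁ w₂ c) 1 = tauPG Δ r (sumWord w₁ w₂ c') 1 :=
  Pool.Agent.Y472.RH.tauPG_all Δ r w₁ w₂ 1 c c'

end Pool.Agent.Q127.HS
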