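import Pool.Agent.Q127.HS.Count

/-!
# The longitudes, part 2
-/

set_option autoImplicit false

namespace Pool.Agent.Q127.HS

/-- the check for one conjugacy class -/
def c2 (k : ℕ) : Bool := chk (List.reverse wordZ) true L2 k fun s => (lonR k).contains s

set_option maxRecDepth 100000 in
theorem c2_0 : c2 0 = true := by decide +kernel

set_option maxRecDepth 100000 in
theorem c2_1 : c2 1 = true := by decide +kernel

set_option maxRecDepth 100000 in
theorem c2_2 : c2 2 = true := by decide +kernel

set_option maxRecDepth 100000 in
theorem c2_3 : c2 3 = true := by decide +kernel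

set_option maxRecDepth 100000 in
theorem c2_4 : c2 4 = true := by decide +kernel

set_option maxRecDepth 100000 in
theorem c2_5 : c2 5 = true := by decide +kernel

set_option maxRecDepth 100000 in
theorem c2_6 : c2 6 = true := by decide +kernel

set_option maxRecDepth 100000 in
theorem c2_7 : c2 7 = true := by decide +kernel

set_option maxRecDepth 100000 in
theorem c2_8 : c2 8 = true := by decide +kernel

set_option maxRecDepth 100000 in
theorem c2_9 : c2 9 = true := by decide +kernel

set_option maxRecDepth 100000 in
theorem c2_10 : c2 10 = true := by decide +kernel

theorem v2 (k : ℕ) (hk : k < 11) : c2 k = true := by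
  interval_cases k
  · exact c2_0
  · exact c2_1
  · exact c2_2
  · exact c2_3
  · exact c2_4
  · exact c2_5
  · exact c2_6
  · exact c2_7
  · exact c2_8
  · exact c2_9
  · exact c2_10

end Pool.Agent.Q127.HS
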