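import Pool.Agent.Q127.HS.V1
import Pool.Agent.Q127.HS.V2
import Pool.Agent.Q127.HS.Ins

/-!
# The surgeries with framing 1 on `K # K` and `K # rK`
-/

set_option autoImplicit false
set_option linter.unusedSectionVars false

namespace Pool.Agent.Q127.HS

open Pool.Agent.W616
open QModule (l3 r3 l3_inj r3_inj)

/-- `K # K` -/
def sumZZ : Braid 4 := left3 wordZ ++ right3 wordZ

/-- `K # rK` -/
def sumZR : Braid 4 := left3 wordZ ++ right3 wordZ.reverse

section long

variable {G : Type*} [Group G]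

theorem long_ZZ (x : Fin 5 → G) (h : Closed wordZ (fun q => x (l3 q))) :
    longAux sumZZ x 2 5 = longAux wordZ (fun q => x (l3 q)) 2 3 *
      longAux wordZ (fun q => x (r3 q)) 0 3 := by
  have e0 : (perm sumZZ)^[0] 2 = 2 := rfl
  have e1 : (perm sumZZ)^[1] 2 = 4 := by decide
  have e2 : (perm sumZZ)^[2] 2 = 3 := by decide
  have e3 : (perm sumZZ)^[3] 2 = 1 := by decide
  have e4 : (perm sumZZ)^[4] 2 = 0 := by decide
  have f0 : (perm wordZ)^[0] 2 = 2 := rfl
  have f1 : (perm wordZ)^[1] 2 = 1 := by decide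
  have f2 : (perm wordZ)^[2] 2 = 0 := by decide
  have g0 : (perm wordZ)^[0] 0 = 0 := rfl
  have g1 : (perm wordZ)^[1] 0 = 2 := by decide
  have g2 : (perm wordZ)^[2] 0 = 1 := by decide
  have k2 : accs sumZZ x 2 = accs wordZ (fun q => x (r3 q)) 0 := by
    have := accs_right wordZ wordZ x h 0
    have e : perm wordZ 0 = 2 := by decide
    rw [e] at this
    exact this.trans (by simp [midA])
  have k3 : accs sumZZ x 3 = accs wordZ (fun q => x (l3 q)) 2 *
      accs wordZ (fun q => x (r3 q)) 1 := by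
    have := accs_right wordZ wordZ x h 1
    have e : perm wordZ 1 = 0 := by decide
    rw [e] at this
    exact this.trans (by simp [midA])
  have k4 : accs sumZZ x 4 = accs wordZ (fun q => x (r3 q)) 2 := by
    have := accs_right wordZ wordZ x h 2
    have e : perm wordZ 2 = 1 := by decide
    rw [e] at this
    exact this.trans (by simp [midA])
  have k0 : accs sumZZ x 0 = accs wordZ (fun q => x (l3 q)) 0 := accs_left0 wordZ wordZ x
  have k1 : accs sumZZ x 1 = accs wordZ (fun q => x (l3 q)) 1 := accs_left1 wordZ wordZ x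
  simp only [longAux_succ, longAux_zero, e0, e1, e2, e3, e4, f0, f1, f2, g0, g1, g2, k0, k1, k2, k3,
    k4, mul_assoc, mul_one]

theorem long_ZR (x : Fin 5 → G) (h : Closed wordZ (fun q => x (l3 q))) :
    longAux sumZR x 2 5 = longAux wordZ (fun q => x (l3 q)) 2 3 *
      longAux wordZ.reverse (fun q => x (r3 q)) 0 3 := by
  have e0 : (perm sumZR)^[0] 2 = 2 := rfl
  have e1 : (perm sumZR)^[1] 2 = 3 := by decide
  have e2 : (perm sumZR)^[2] 2 = 4 := by decide
  have e3 : (perm sumZR)^[3] 2 = 1 := by decide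
  have e4 : (perm sumZR)^[4] 2 = 0 := by decide
  have f0 : (perm wordZ)^[0] 2 = 2 := rfl
  have f1 : (perm wordZ)^[1] 2 = 1 := by decide
  have f2 : (perm wordZ)^[2] 2 = 0 := by decide
  have g0 : (perm wordZ.reverse)^[0] 0 = 0 := rfl
  have g1 : (perm wordZ.reverse)^[1] 0 = 1 := by decide
  have g2 : (perm wordZ.reverse)^[2] 0 = 2 := by decide
  have k2 : accs sumZR x 2 = accs wordZ.reverse (fun q => x (r3 q)) 0 := by
    have := accs_right wordZ wordZ.reverse x h 0
    have e : perm wordZ.reverse 0 = 1 := by decide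
    rw [e] at this
    exact this.trans (by simp [midA])
  have k3 : accs sumZR x 3 = accs wordZ.reverse (fun q => x (r3 q)) 1 := by
    have := accs_right wordZ wordZ.reverse x h 1
    have e : perm wordZ.reverse 1 = 2 := by decide
    rw [e] at this
    exact this.trans (by simp [midA])
  have k4 : accs sumZR x 4 = accs wordZ (fun q => x (l3 q)) 2 *
      accs wordZ.reverse (fun q => x (r3 q)) 2 := by
    have := accs_right wordZ wordZ.reverse x h 2
    have e : perm wordZ.reverse 2 = 0 := by decide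
    rw [e] at this
    exact this.trans (by simp [midA])
  have k0 : accs sumZR x 0 = accs wordZ (fun q => x (l3 q)) 0 := accs_left0 wordZ wordZ.reverse x
  have k1 : accs sumZR x 1 = accs wordZ (fun q => x (l3 q)) 1 := accs_left1 wordZ wordZ.reverse x
  simp only [longAux_succ, longAux_zero, e0, e1, e2, e3, e4, f0, f1, f2, g0, g1, g2, k0, k1, k2, k3,
    k4, mul_assoc, mul_one]

end long

theorem trans_Z : Trans3 wordZ := by decide
theorem trans_R : Trans3 wordZ.reverse := by decide

theorem long0 (x : Fin 3 → E) : L0 (accs wordZ x 0).code (accs wordZ x 1).code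
    (accs wordZ x 2).code = (longAux wordZ x 2 3).code := by
  have f0 : (perm wordZ)^[0] 2 = 2 := rfl
  have f1 : (perm wordZ)^[1] 2 = 1 := by decide
  have f2 : (perm wordZ)^[2] 2 = 0 := by decide
  rw [longAux_succ, longAux_succ, longAux_succ, longAux_zero, f0, f1, f2, mul_one]
  rfl

theorem long1 (x : Fin 3 → E) : L1 (accs wordZ x 0).code (accs wordZ x 1).code
    (accs wordZ x 2).code = (longAux wordZ x 0 3).code := by
  have f0 : (perm wordZ)^[0] 0 = 0 := rfl
  have f1 : (perm wordZ)^[1] 0 = 2 := by decide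
  have f2 : (perm wordZ)^[2] 0 = 1 := by decide
  rw [longAux_succ, longAux_succ, longAux_succ, longAux_zero, f0, f1, f2, mul_one]
  rfl

theorem long2 (x : Fin 3 → E) : L2 (accs wordZ.reverse x 0).code (accs wordZ.reverse x 1).code
    (accs wordZ.reverse x 2).code = (longAux wordZ.reverse x 0 3).code := by
  have f0 : (perm wordZ.reverse)^[0] 0 = 0 := rfl
  have f1 : (perm wordZ.reverse)^[1] 0 = 1 := by decide
  have f2 : (perm wordZ.reverse)^[2] 0 = 2 := by decide
  rw [longAux_succ, longAux_succ, longAux_succ, longAux_zero, f0, f1, f2, mul_one]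
  rfl

theorem spec0 (k : ℕ) (hk : k < 11) (x : Fin 3 → E) (hx : Closed wordZ x) (hb : x 2 = repE k) :
    (longAux wordZ x 2 3).code ∈ lonK k := by
  have h := chk_spec wordZ trans_Z false L0 k hk _ (v1 k hk) x hx hb
  rw [long0] at h
  simpa using h

theorem spec2 (k : ℕ) (hk : k < 11) (x : Fin 3 → E) (hx : Closed wordZ.reverse x)
    (hb : x 0 = repE k) : (longAux wordZ.reverse x 0 3).code ∈ lonR k := by
  have h := chk_spec wordZ.reverse trans_R true L2 k hk _ (v2 k hk) x hx hb
  rw [long2] at h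
  simpa using h

/-- the code of a power -/
def hpw (a : ℕ) : ℕ → ℕ
  | 0 => 0
  | n + 1 => force (hpw a n) fun r => hm r a

theorem hpw_eq (a : E) (n : ℕ) : hpw a.code n = (a ^ n).code := by
  induction n with
  | zero => simp [hpw, code_one]
  | succ n ih => rw [hpw, force_eq, ih, pow_succ, code_mul]

/-- no pair of longitudes satisfies the relation of the surgery, but for the trivial meridian -/
theorem no_pair : ∀ k < 11, k ≠ 0 → ∀ s ∈ lonK k, ∀ s' ∈ lonR k,
    hm (hpw (hi (rep k)) 11) (hm s s') ≠ 0 := by decide +kernel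

theorem writhe_ZR : writhe sumZR = 12 := by decide
theorem writhe_ZZ : writhe sumZZ = 12 := by decide

theorem zpow_neg11 (a : E) : (a ^ ((1 : ℤ) - 12)).code = hpw (hi a.code) 11 := by
  have e : a ^ ((1 : ℤ) - 12) = (a⁻¹) ^ 11 := by
    rw [inv_pow, ← zpow_natCast, ← zpow_neg]
    norm_num
  rw [e, ← hpw_eq, code_inv]

/-- The relations of the surgery on `K # rK` have only the trivial solution in the group of order
1344. -/
theorem sol_trivial (x : Fin 5 → E) (hc : Closed sumZR x)
    (hr : x 2 ^ ((1 : ℤ) - writhe sumZR) * longAux sumZR x 2 5 = 1) : ∀ p, x p = 1 := by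
  have hk := (allTo_eq _ _).1 cls_all (x 2).code (x 2).lt
  simp only [Bool.and_eq_true, decide_eq_true_eq, beq_iff_eq] at hk
  obtain ⟨hk1, hg1, hg2⟩ := hk
  obtain ⟨k, hk⟩ : ∃ k, k = cls (x 2).code := ⟨_, rfl⟩
  obtain ⟨g, hg⟩ : ∃ g : E, g = ⟨cj (x 2).code, hg1⟩ := ⟨_, rfl⟩
  rw [← hk] at hk1 hg2
  have hrep : g * x 2 * g⁻¹ = repE k := by
    apply E.ext'
    rw [hg]
    exact hg2
  let y : Fin 5 → E := fun p => g * x p * g⁻¹
  have hy : Closed sumZR y := (closed_map_conj g sumZR x).2 hc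
  have hy2 : y 2 = repE k := hrep
  have hlong : longAux sumZR y 2 5 = g * longAux sumZR x 2 5 * g⁻¹ :=
    longAux_map (MulAut.conj g).toMonoidHom sumZR x 2 5
  have hry : y 2 ^ ((1 : ℤ) - 12) * longAux sumZR y 2 5 = 1 := by
    rw [hlong]
    change (g * x 2 * g⁻¹) ^ ((1 : ℤ) - 12) * _ = 1
    rw [conj_zpow]
    rw [writhe_ZR] at hr
    have : g * x 2 ^ ((1 : ℤ) - 12) * g⁻¹ * (g * longAux sumZR x 2 5 * g⁻¹) =
        g * (x 2 ^ ((1 : ℤ) - 12) * longAux sumZR x 2 5) * g⁻¹ := by group
    rw [this, hr]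
    group
  obtain ⟨c1, c2⟩ := (closed_sum wordZ wordZ.reverse y).1 hy
  have b1 : (fun q => y (l3 q)) 2 = repE k := hy2
  have b2 : (fun q => y (r3 q)) 0 = repE k := hy2
  have s1 := spec0 k hk1 _ c1 b1
  have s2 := spec2 k hk1 _ c2 b2
  have hk0 : k = 0 := by
    by_contra hne
    refine no_pair k hk1 hne _ s1 _ s2 ?_
    rw [long_ZR y c1, hy2] at hry
    have h3 := congrArg E.code hry
    rw [code_mul, zpow_neg11, code_mul] at h3
    exact h3
  have hone : repE k = 1 := by rw [hk0]; rfl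
  have hall : ∀ p, y p = 1 := by
    have h1 : ∀ q, y (l3 q) = 1 := by
      intro q
      obtain ⟨u, hu⟩ := closed_isConj wordZ trans_Z _ c1 2 q
      have b1' : y (l3 2) = 1 := b1.trans hone
      rw [b1'] at hu
      simpa using hu
    have h2 : ∀ q, y (r3 q) = 1 := by
      intro q
      obtain ⟨u, hu⟩ := closed_isConj wordZ.reverse trans_R _ c2 0 q
      have b2' : y (r3 0) = 1 := b2.trans hone
      rw [b2'] at hu
      simpa using hu
    intro p
    have hp : p = l3 0 ∨ p = l3 1 ∨ p = r3 0 ∨ p = r3 1 ∨ p = r3 2 := by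
      revert p; decide
    rcases hp with rfl | rfl | rfl | rfl | rfl
    · exact h1 0
    · exact h1 1
    · exact h2 0
    · exact h2 1
    · exact h2 2
  intro p
  have h := hall p
  change g * x p * g⁻¹ = 1 at h
  have h4 : x p = g⁻¹ * (g * x p * g⁻¹) * g := by group
  rw [h4, h]
  group

/-- There is exactly one homomorphism from the fundamental group of the surgery on `K # rK`. -/
theorem card_ZR : Nat.card (pi1 sumZR 2 1 →* E) = 1 := by
  rw [Nat.card_congr (homEquiv sumZR 2 1), Nat.card_eq_one_iff_unique]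
  refine ⟨⟨fun a b => ?_⟩, ⟨⟨fun _ => 1, ?_, ?_⟩⟩⟩
  · apply Subtype.ext
    funext p
    rw [sol_trivial a.1 a.2.1 a.2.2 p, sol_trivial b.1 b.2.1 b.2.2 p]
  · intro p
    exact (homEquiv (G := E) sumZR 2 1 1).2.1 p
  · exact (homEquiv (G := E) sumZR 2 1 1).2.2

/-- an element of the group -/
def el (n : ℕ) (h : n < 1344) : E := ⟨n, h⟩

/-- a solution for `K # K` -/
def solK : Fin 5 → E := ![el 289 (by norm_num), el 380 (by norm_num), el 248 (by norm_num),
  el 337 (by norm_num), el 294 (by norm_num)]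

theorem cl1 : cl wordZ 289 380 248 = true := by decide +kernel
theorem cl2 : cl wordZ 248 337 294 = true := by decide +kernel

theorem clo1 : Closed wordZ (fun q => solK (l3 q)) :=
  (cl_eq wordZ (fun q => solK (l3 q))).1 cl1
theorem clo2 : Closed wordZ (fun q => solK (r3 q)) :=
  (cl_eq wordZ (fun q => solK (r3 q))).1 cl2

theorem lg1 : (runN wordZ 289 380 248 0 0 0 fun _ _ _ a0 a1 a2 => L0 a0 a1 a2) = 570 := by
  decide +kernel
theorem lg2 : (runN wordZ 248 337 294 0 0 0 fun _ _ _ a0 a1 a2 => L1 a0 a1 a2) = 570 := by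
  decide +kernel

theorem lo1 : (longAux wordZ (fun q => solK (l3 q)) 2 3).code = 570 := by
  rw [← long0]
  exact (runN_eq wordZ (fresh (fun q => solK (l3 q))) (fun _ _ _ a0 a1 a2 => L0 a0 a1 a2)).symm.trans
    lg1

theorem lo2 : (longAux wordZ (fun q => solK (r3 q)) 0 3).code = 570 := by
  rw [← long1]
  exact (runN_eq wordZ (fresh (fun q => solK (r3 q))) (fun _ _ _ a0 a1 a2 => L1 a0 a1 a2)).symm.trans
    lg2

theorem rel_K : hm (hpw (hi 248) 11) (hm 570 570) = 0 := by decide +kernel

/-- There is a nontrivial homomorphism from the fundamental group of the surgery on `K # K`. -/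
theorem card_ZZ : 1 < Nat.card (pi1 sumZZ 2 1 →* E) := by
  rw [Nat.card_congr (homEquiv sumZZ 2 1)]
  have : Finite {x : Fin 5 → E // Closed sumZZ x ∧
      x 2 ^ ((1 : ℤ) - writhe sumZZ) * longAux sumZZ x 2 (4 + 1) = 1} := inferInstance
  rw [Finite.one_lt_card_iff_nontrivial]
  have hc : Closed sumZZ solK := (closed_sum wordZ wordZ solK).2 ⟨clo1, clo2⟩
  have hr : solK 2 ^ ((1 : ℤ) - writhe sumZZ) * longAux sumZZ solK 2 (4 + 1) = 1 := by
    change solK 2 ^ ((1 : ℤ) - writhe sumZZ) * longAux sumZZ solK 2 5 = 1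
    rw [long_ZZ solK clo1, writhe_ZZ]
    apply E.ext'
    rw [code_mul, zpow_neg11, code_mul, lo1, lo2]
    exact rel_K
  refine ⟨⟨solK, hc, hr⟩, ⟨fun _ => 1, fun p => (homEquiv (G := E) sumZZ 2 1 1).2.1 p,
    (homEquiv (G := E) sumZZ 2 1 1).2.2⟩, fun h => ?_⟩
  have h2 : (248 : ℕ) = 0 := congrArg (fun y => (y.1 2 : E).code) h
  omega

end Pool.Agent.Q127.HS
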