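import Pool.Agent.Q127.HS.Count

/-!
# The longitudes, part 1
-/

set_option autoImplicit false

namespace Pool.Agent.Q127.HS

/-- the check for one conjugacy class -/
def c1 (k : ℕ) : Bool := chk wordZ false L0 k fun s => (lonK k).contains s

set_option maxRecDepth 100000 in
theorem c1_0 : c1 0 = true := by decide +kernel

set_option maxRecDepth 100000 in
theorem c1_1 : c1 1 = true := by decide +kernel

set_option maxRecDepth 100000 in
theorem c1_2 : c1 2 = true := by decide +kernel

set_option maxRecDepth 100000 in
theorem c1_3 : c1 3 = true := by decide +kernel

set_option maxRecDepth 100000 in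
theorem c1_4 : c1 4 = true := by decide +kernel

set_option maxRecDepth 100000 in
theorem c1_5 : c1 5 = true := by decide +kernel

set_option maxRecDepth 100000 in
theorem c1_6 : c1 6 = true := by decide +kernel

set_option maxRecDepth 100000 in
theorem c1_7 : c1 7 = true := by decide +kernel

set_option maxRecDepth 100000 in
theorem c1_8 : c1 8 = true := by decide +kernel

set_option maxRecDepth 100000 in
theorem c1_9 : c1 9 = true := by decide +kernel

set_option maxRecDepth 100000 in
theorem c1_10 : c1 10 = true := by decide +kernel

theorem v1 (k : ℕ) (hk : k < 11) : c1 k = true := by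
  interval_cases k
  · exact c1_0
  · exact c1_1
  · exact c1_2
  · exact c1_3
  · exact c1_4
  · exact c1_5
  · exact c1_6
  · exact c1_7
  · exact c1_8
  · exact c1_9
  · exact c1_10

end Pool.Agent.Q127.HS
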